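import Pool.Agent.Helper98_CC.Stmts
import Pool.Agent.Helper91_WRA.Inter
import Pool.Agent.Helper51_AWC.ProdSum

/-!
CC, module CON: a nontrivial normal `ℓ`-subgroup makes the sum of the commutator counts vanish.
-/

open scoped BigOperators

noncomputable section

namespace Pool.Agent.Helper51_CC

open Pool.Agent.Helper51_AWC Pool.Agent.Helper79_WRA Pool.Agent.Helper98_CC

/-- the `ℓ`-subgroups of `G` -/
def pall (ℓ : ℕ) (G : Type) [Group G] [Finite G] : Finset (Subgroup G) :=
  (Set.toFinite {D : Subgroup G | IsPGroup ℓ D}).toFinset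

theorem mem_pall {ℓ : ℕ} {G : Type} [Group G] [Finite G] {D : Subgroup G} :
    D ∈ pall ℓ G ↔ IsPGroup ℓ D := by
  simp [pall]

open Classical in
theorem stab_insert_bot {G : Type} [Group G] (d : Finset (Subgroup G)) :
    stab (insert ⊥ d) = stab d := by
  ext g
  rw [mem_stab, mem_stab]
  constructor
  · exact fun h D hD => h D (Finset.mem_insert_of_mem hD)
  · intro h D hD
    rcases Finset.mem_insert.1 hD with rfl | hD
    · exact Subgroup.map_bot _
    · exact h D hD

open Classical in
/-- the sum over the chains of nontrivial `ℓ`-subgroups as a sum over the chains with least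
member `⊥` -/
theorem torusSum_eq (ℓ : ℕ) {G : Type} [Group G] [Finite G] (c : G) :
    torusSum ℓ c = ∑ v ∈ chainsOn (pall ℓ G) ⊥, (-1) ^ (v.card + 1) * (comm2 (stab v) c : ℤ) := by
  have hfin : (pChains ℓ G).Finite := Set.toFinite _
  unfold torusSum
  rw [finsum_mem_eq_finite_toFinset_sum _ hfin]
  refine Finset.sum_bij' (fun d _ => insert ⊥ d) (fun v _ => v.erase ⊥) ?_ ?_ ?_ ?_ ?_
  · intro d hd
    have hd' : d ∈ pChains ℓ G := by simpa using hd
    rw [mem_chainsOn]
    refine ⟨?_, Finset.mem_insert_self _ _, ?_⟩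
    · intro D hD
      rw [mem_pall]
      rcases Finset.mem_insert.1 hD with rfl | hD
      · exact IsPGroup.of_bot
      · exact (hd'.1 D hD).2
    · rw [Finset.coe_insert]
      exact hd'.2.insert fun D _ _ => Or.inl bot_le
  · intro v hv
    obtain ⟨h1, h2, h3⟩ := mem_chainsOn.1 hv
    rw [Set.Finite.mem_toFinset]
    refine ⟨fun D hD => ⟨Finset.ne_of_mem_erase hD,
      mem_pall.1 (h1 (Finset.mem_of_mem_erase hD))⟩, ?_⟩
    exact h3.mono fun D hD => Finset.mem_of_mem_erase hD
  · intro d hd
    have hd' : d ∈ pChains ℓ G := by simpa using hd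
    exact Finset.erase_insert fun h => (hd'.1 ⊥ h).1 rfl
  · intro v hv
    exact Finset.insert_erase (mem_chainsOn.1 hv).2.1
  · intro d hd
    have hd' : d ∈ pChains ℓ G := by simpa using hd
    rw [stab_insert_bot, Finset.card_insert_of_notMem fun h => (hd'.1 ⊥ h).1 rfl]
    ring

theorem con : ConStmt := by
  classical
  intro ℓ _ G _ _ hO c
  obtain ⟨o1, o2, -⟩ := opCore_spec ℓ G
  rw [torusSum_eq]
  refine H91.cone (Subgroup G) (pall ℓ G) ⊥ (opCore ℓ G) (fun x => x ⊔ opCore ℓ G)
    (fun h => hO (le_bot_iff.1 h)) (fun _ _ => bot_le) ?_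
    (fun _ _ => le_sup_left) (fun _ _ => le_sup_right) (fun x _ y _ h1 h2 => sup_le h1 h2)
    (fun v => (-1) ^ (v.card + 1) * (comm2 (stab v) c : ℤ)) ?_
  · intro x hx
    rw [mem_pall] at hx ⊢
    exact hx.to_sup_of_normal_right o2
  · intro d _ x hx hnot
    have hs : stab (insert (x ⊔ opCore ℓ G) d) = stab d := by
      ext g
      rw [mem_stab, mem_stab]
      constructor
      · exact fun h D hD => h D (Finset.mem_insert_of_mem hD)
      · intro h D hD
        rcases Finset.mem_insert.1 hD with rfl | hD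
        · have h3 : conjS g (x ⊔ opCore ℓ G) = conjS g x ⊔ conjS g (opCore ℓ G) :=
            Subgroup.map_sup _ _ _
          rw [h3, h x hx, opCore_conj]
        · exact h D hD
    rw [hs, Finset.card_insert_of_notMem hnot]
    ring

end Pool.Agent.Helper51_CC
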