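import Pool.Agent.Helper98_CC.Stmts
import Pool.Agent.Helper51_AWC.Transport

/-!
CC, module BOXP: the sum over all families with given labels is a product.
-/

open scoped BigOperators

noncomputable section

namespace Pool.Agent.Helper51_CC

open Pool.Agent.Helper51_AWC Pool.Agent.Helper79_WRA Pool.Agent.Helper98_CC

open Classical in
/-- the product formula for alternating sums over the chains of a power of a poset -/
def PiCh (ι : Type) : Prop :=
  ∀ [Fintype ι] (A : Type) [PartialOrder A] (s : Finset A) (b : A), (∀ x ∈ s, b ≤ x) → b ∈ s →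
    ∀ S : Finset (ι → A), (∀ R, R ∈ S ↔ ∀ j, R j ∈ s) → ∀ F : ι → Finset A → ℤ,
    ∑ v ∈ chainsOn S (fun _ => b), (-1) ^ (v.card + 1) * ∏ j, F j (v.image fun R => R j) =
      ∏ j, ∑ c ∈ chainsOn s b, (-1) ^ (c.card + 1) * F j c

/-- reindexing -/
def reE {α β A : Type} [PartialOrder A] (e : α ≃ β) : (α → A) ↪o (β → A) where
  toFun R j := R (e.symm j)
  inj' R R' h := by
    funext i
    have := congrFun h (e i)
    simpa using this
  map_rel_iff' {R R'} := by
    constructor
    · intro h i
      have h' : R (e.symm (e i)) ≤ R' (e.symm (e i)) := h (e i)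
      rwa [e.symm_apply_apply] at h'
    · intro h j
      exact h (e.symm j)

/-- adding one coordinate -/
def opE {α A : Type} [PartialOrder A] : A × (α → A) ↪o (Option α → A) where
  toFun p o := o.elim p.1 p.2
  inj' p p' h := by
    refine Prod.ext ?_ ?_
    · exact congrFun h none
    · funext i
      exact congrFun h (some i)
  map_rel_iff' {p p'} := by
    constructor
    · intro h
      exact ⟨h none, fun i => h (some i)⟩
    · rintro ⟨h1, h2⟩ o
      cases o with
      | none => exact h1
      | some i => exact h2 i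

theorem pich_equiv {α β : Type} (e : α ≃ β) (h : PiCh α) : PiCh β := by
  classical
  intro _ A _ s b hb hbs S hS F
  let _ : Fintype α := Fintype.ofEquiv β e.symm
  let S' : Finset (α → A) := S.image fun R i => R (e i)
  have hS' : ∀ R, R ∈ S' ↔ ∀ i, R i ∈ s := by
    intro R
    rw [Finset.mem_image]
    constructor
    · rintro ⟨Q, hQ, rfl⟩ i
      exact (hS Q).1 hQ (e i)
    · intro hR
      refine ⟨fun j => R (e.symm j), (hS _).2 fun j => hR _, ?_⟩
      funext i
      simp
  have hmap : S'.map (reE (A := A) e).toEmbedding = S := by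
    ext R
    rw [Finset.mem_map]
    constructor
    · rintro ⟨Q, hQ, rfl⟩
      exact (hS _).2 fun j => (hS' Q).1 hQ _
    · intro hR
      refine ⟨fun i => R (e i), (hS' _).2 fun i => (hS R).1 hR _, ?_⟩
      funext j
      show R (e (e.symm j)) = R j
      rw [e.apply_symm_apply]
  have hbot : (reE (A := A) e) (fun _ => b) = fun _ => b := rfl
  rw [← hmap, ← hbot, sum_chainsOn_map]
  have h1 := h A s b hb hbs S' hS' fun i => F (e i)
  have h2 : ∀ d ∈ chainsOn S' (fun _ => b),
      (-1) ^ ((d.map (reE (A := A) e).toEmbedding).card + 1) *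
        ∏ j, F j ((d.map (reE (A := A) e).toEmbedding).image fun R => R j) =
      (-1) ^ (d.card + 1) * ∏ i, F (e i) (d.image fun R => R i) := by
    intro d _
    rw [Finset.card_map]
    congr 1
    rw [← Equiv.prod_comp e]
    refine Finset.prod_congr rfl fun i _ => ?_
    congr 1
    ext x
    simp only [Finset.mem_image, Finset.mem_map]
    constructor
    · rintro ⟨R, ⟨Q, hQ, rfl⟩, rfl⟩
      refine ⟨Q, hQ, ?_⟩
      show Q i = Q (e.symm (e i))
      rw [e.symm_apply_apply]
    · rintro ⟨Q, hQ, rfl⟩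
      refine ⟨_, ⟨Q, hQ, rfl⟩, ?_⟩
      show Q (e.symm (e i)) = Q i
      rw [e.symm_apply_apply]
  rw [Finset.sum_congr rfl h2, h1]
  exact Equiv.prod_comp e fun j => ∑ c ∈ chainsOn s b, (-1) ^ (c.card + 1) * F j c

theorem pich_empty : PiCh PEmpty := by
  classical
  intro _ A _ s b hb hbs S hS F
  have h1 : chainsOn S (fun _ => b) = {{fun _ => b}} := by
    ext d
    rw [mem_chainsOn, Finset.mem_singleton]
    constructor
    · rintro ⟨_, hd, _⟩
      ext R
      rw [Finset.mem_singleton]
      have : R = fun _ => b := Subsingleton.elim _ _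
      rw [this]
      simp [hd]
    · rintro rfl
      refine ⟨?_, Finset.mem_singleton_self _, ?_⟩
      · intro R _
        exact (hS R).2 fun j => j.elim
      · rw [Finset.coe_singleton]
        exact Set.Subsingleton.isChain (Set.subsingleton_singleton)
  rw [h1, Finset.sum_singleton, Finset.card_singleton, Fintype.prod_empty, Fintype.prod_empty]
  norm_num

theorem op_summand {α A : Type} [Fintype α] [PartialOrder A] [DecidableEq A]
    [DecidableEq (α → A)] [DecidableEq (Option α → A)] (F : Option α → Finset A → ℤ)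
    (d : Finset (A × (α → A))) :
    (-1 : ℤ) ^ ((d.map (opE (α := α) (A := A)).toEmbedding).card + 1) *
        ∏ j, F j ((d.map (opE (α := α) (A := A)).toEmbedding).image fun R => R j) =
      (-1) ^ (d.card + 1) * (F none (d.image Prod.fst) *
        ∏ i, F (some i) ((d.image Prod.snd).image fun R => R i)) := by
  rw [Finset.card_map]
  congr 1
  rw [Fintype.prod_option]
  have e1 : ((d.map (opE (α := α) (A := A)).toEmbedding).image fun R => R none) =
      d.image Prod.fst := by
    ext x
    simp only [Finset.mem_image, Finset.mem_map]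
    constructor
    · rintro ⟨R, ⟨Q, hQ, rfl⟩, rfl⟩
      exact ⟨Q, hQ, rfl⟩
    · rintro ⟨Q, hQ, rfl⟩
      exact ⟨_, ⟨Q, hQ, rfl⟩, rfl⟩
  have e2 : ∀ i : α, ((d.map (opE (α := α) (A := A)).toEmbedding).image fun R => R (some i)) =
      (d.image Prod.snd).image fun R => R i := by
    intro i
    ext x
    simp only [Finset.mem_image, Finset.mem_map]
    constructor
    · rintro ⟨R, ⟨Q, hQ, rfl⟩, rfl⟩
      exact ⟨_, ⟨Q, hQ, rfl⟩, rfl⟩
    · rintro ⟨R, ⟨Q, hQ, rfl⟩, rfl⟩
      exact ⟨_, ⟨Q, hQ, rfl⟩, rfl⟩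
  rw [e1]
  congr 1
  exact Finset.prod_congr rfl fun i _ => by rw [e2 i]

theorem op_map {α A : Type} [Fintype α] [PartialOrder A] (s : Finset A) (S : Finset (Option α → A))
    (hS : ∀ R, R ∈ S ↔ ∀ j, R j ∈ s) (S' : Finset (α → A)) (hS' : ∀ R, R ∈ S' ↔ ∀ i, R i ∈ s) :
    (s ×ˢ S').map (opE (α := α) (A := A)).toEmbedding = S := by
  ext R
  rw [Finset.mem_map]
  constructor
  · rintro ⟨⟨a, Q⟩, hQ, rfl⟩
    rw [Finset.mem_product] at hQ
    rw [hS]
    intro o
    cases o with
    | none => exact hQ.1
    | some i => exact (hS' Q).1 hQ.2 i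
  · intro hR
    rw [hS] at hR
    refine ⟨(R none, fun i => R (some i)), ?_, ?_⟩
    · rw [Finset.mem_product]
      exact ⟨hR none, (hS' _).2 fun i => hR (some i)⟩
    · funext o
      cases o with
      | none => rfl
      | some i => rfl

theorem op_sum {A B : Type} [PartialOrder A] [PartialOrder B] (s : Finset A) (a : A)
    (t : Finset B) (b : B) (has : ∀ x ∈ s, a ≤ x) (hbt : ∀ y ∈ t, b ≤ y) (f : Finset A → ℤ)
    (g : Finset B → ℤ) (i1 : DecidableEq A) (i2 : DecidableEq B) :
    ∑ d ∈ chainsOn (s ×ˢ t) (a, b), (-1 : ℤ) ^ (d.card + 1) *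
        (f (d.image Prod.fst) * g (d.image Prod.snd)) =
      (∑ c ∈ chainsOn s a, (-1) ^ (c.card + 1) * f c) *
        ∑ c' ∈ chainsOn t b, (-1) ^ (c'.card + 1) * g c' := by
  have h1 : i1 = fun x y => Classical.propDecidable (x = y) := Subsingleton.elim _ _
  have h2 : i2 = fun x y => Classical.propDecidable (x = y) := Subsingleton.elim _ _
  subst h1 h2
  rw [Finset.sum_mul_sum]
  refine (sum_prod_chains s a t b has hbt fun c c' => f c * g c').trans ?_
  refine Finset.sum_congr rfl fun c _ => Finset.sum_congr rfl fun c' _ => ?_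
  ring

theorem pich_option {α : Type} [Fintype α] (h : PiCh α) : PiCh (Option α) := by
  classical
  intro inst A _ s b hb hbs S hS F
  have hinst : inst = instFintypeOption := Subsingleton.elim _ _
  subst hinst
  have hS' : ∀ R, R ∈ (Fintype.piFinset fun _ => s : Finset (α → A)) ↔ ∀ i, R i ∈ s :=
    fun R => Fintype.mem_piFinset
  generalize (Fintype.piFinset fun _ => s : Finset (α → A)) = S' at hS'
  have hbot : (opE (α := α) (A := A)) (b, fun _ => b) = fun _ => b := by
    funext o
    cases o with
    | none => rfl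
    | some i => rfl
  rw [← op_map s S hS S' hS', ← hbot, sum_chainsOn_map,
    Finset.sum_congr rfl fun d _ => op_summand F d]
  have e1 := h A s b hb hbs S' hS' fun i => F (some i)
  have e2 : ∀ R ∈ S', (fun _ => b) ≤ R := fun R hR j => hb _ ((hS' R).1 hR j)
  have e4 : ∏ o, (∑ c ∈ chainsOn s b, (-1 : ℤ) ^ (c.card + 1) * F o c) =
      (∑ c ∈ chainsOn s b, (-1 : ℤ) ^ (c.card + 1) * F none c) *
        ∏ i, (∑ c ∈ chainsOn s b, (-1 : ℤ) ^ (c.card + 1) * F (some i) c) :=
    Fintype.prod_option _
  rw [e4, ← e1]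
  have e3 := op_sum s b S' (fun _ => b) hb e2 (F none)
    (fun c' => ∏ i, F (some i) (c'.image fun R => R i))
    (fun x y => Classical.propDecidable (x = y)) (fun x y => Fintype.decidablePiFintype x y)
  exact e3

theorem pich (ι : Type) [Finite ι] : PiCh ι :=
  Finite.induction_empty_option (P := PiCh) (fun e h => pich_equiv e h) pich_empty
    (fun h => pich_option h) ι

open Classical in
/-- the number of families of characters with given labels -/
theorem card_fam {G Δ : Type} [Group G] [Finite G] [Fintype Δ] (M : Ideal (integralClosure ℤ ℂ))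
    (v : Finset (Δ → Subgroup G)) (β : Δ → G → FF M) :
    ((charsOf v).filter fun w => ∀ j, labF M (w j) = β j).card =
      ∏ j, {a | a ∈ IrrS (colStab v j) ∧ labF M a = β j}.ncard := by
  have h1 : ((charsOf v).filter fun w => ∀ j, labF M (w j) = β j) =
      Fintype.piFinset fun j => (IrrS_finite (colStab v j)).toFinset.filter
        fun a => labF M a = β j := by
    ext w
    rw [Finset.mem_filter, mem_charsOf, Fintype.mem_piFinset]
    constructor
    · rintro ⟨h1, h2⟩ j
      rw [Finset.mem_filter, Set.Finite.mem_toFinset]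
      exact ⟨h1 j, h2 j⟩
    · intro h
      constructor
      · intro j
        have := h j
        rw [Finset.mem_filter, Set.Finite.mem_toFinset] at this
        exact this.1
      · intro j
        exact (Finset.mem_filter.1 (h j)).2
  rw [h1, Fintype.card_piFinset]
  refine Finset.prod_congr rfl fun j _ => ?_
  rw [← Set.ncard_coe_finset]
  congr 1
  ext a
  simp

theorem boxp : BoxpStmt := by
  classical
  intro ℓ _ M G Δ _ _ _ β hO
  have hb : ∀ x ∈ psub ℓ G, (⊥ : Subgroup G) ≤ x := fun x _ => bot_le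
  have hbs : (⊥ : Subgroup G) ∈ psub ℓ G := by
    rw [mem_psub, hO]
    exact ⟨le_rfl, IsPGroup.of_bot⟩
  have hS : ∀ R, R ∈ boxes ℓ G Δ ↔ ∀ j, R j ∈ psub ℓ G := fun R => mem_boxes
  have key := pich Δ (Subgroup G) (psub ℓ G) ⊥ hb hbs (boxes ℓ G Δ) hS
    (fun j c => (Nat.card (stab c) : ℤ) *
      (({a | a ∈ IrrS (stab c) ∧ labF M a = β j}.ncard : ℕ) : ℤ))
  have h1 : ∀ v ∈ chainsOn (boxes ℓ G Δ) (fun _ => ⊥), (-1) ^ (v.card + 1) *
      ∑ α ∈ (charsOf v).filter (fun w => ∀ j, labF M (w j) = β j),
        ∏ j, (Nat.card (colStab v j) : ℤ) =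
      (-1) ^ (v.card + 1) * ∏ j, ((Nat.card (stab (v.image fun R => R j)) : ℤ) *
      (({a | a ∈ IrrS (stab (v.image fun R => R j)) ∧ labF M a = β j}.ncard : ℕ) : ℤ)) := by
    intro v _
    congr 1
    rw [Finset.sum_const, card_fam, nsmul_eq_mul, Finset.prod_mul_distrib, mul_comm]
    push_cast
    congr 1
    · exact Finset.prod_congr rfl fun j _ => by rw [colStab_eq]
    · exact Finset.prod_congr rfl fun j _ => by rw [colStab_eq]
  rw [Finset.sum_congr rfl h1]
  exact key

end Pool.Agent.Helper51_CC
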